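import Pool.Agent.Helper51.CX.St

set_option autoImplicit false

/-! # Module C1 of project CX -/

namespace Pool.Agent.Helper24.CX

open Pool.Agent.Helper51.CX

theorem hC1 : StTRA → StBDP → StGAP → StC1 := by
  intro hTRA hBDP hGAP K _ _ _ j h z h32 h64 hh hF hLj hLh k hk hkj hkh hLk
  obtain ⟨b1, b2, b3, b4, b5, b6, b7, b8, b9, b10, b11⟩ := hBDP K j h32 h64 z hF hLj
  have hz5 : z 5 ≤ 101 / 100 := by
    have := (abs_le.1 (le_refl |z 5 - 1|)).2
    linarith
  have hm : mm z ≤ 31 / 10 := by linarith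
  have hel := abs_le.1 b6
  have hp := le_abs_self (pp j z)
  have hp0 := abs_nonneg (pp j z)
  have hE : 10 ^ 40 * |ww j z| = 10 ^ 20 * pp j z - el j z := by
    rcases hh with rfl | rfl
    · exact b10 hLh
    · exact b11 hLh
  by_cases hg : k = ga j ∨ k = gb j
  · -- both gap rows are tight
    have hboth : L (ga j) z = 10 ^ 60 ∧ L (gb j) z = 10 ^ 60 := by
      rcases hh with rfl | rfl <;> rcases hg with rfl | rfl
      · exact absurd rfl hkh
      · exact ⟨hLh, hLk⟩
      · exact ⟨hLk, hLh⟩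
      · exact absurd rfl hkh
    obtain ⟨g1, g2⟩ := hGAP K j h32 h64 z
    rw [hLj, hboth.1, sub_self] at g1
    rw [hLj, hboth.2, sub_self] at g2
    have hla : (la j : K) ≠ 0 := by
      have := (la_bds (K := K) j h32 h64).1
      intro h0
      rw [h0] at this
      linarith
    have e1 := (mul_eq_zero.1 g1.symm).resolve_left hla
    have e2 := (mul_eq_zero.1 g2.symm).resolve_left hla
    have e3 : 10 ^ 20 * pp j z = el j z := by linarith
    refine ⟨?_, fun h1 h2 => absurd hg (by
      rintro (h3 | h3)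
      · exact h1 h3
      · exact h2 h3)⟩
    have e4 : 10 ^ 20 * |pp j z| = |el j z| := by
      rw [← e3, abs_mul, abs_of_pos (by positivity : (0 : K) < 10 ^ 20)]
    linarith
  · have hga : k ≠ ga j := fun h1 => hg (Or.inl h1)
    have hgb : k ≠ gb j := fun h1 => hg (Or.inr h1)
    have ht := hTRA K j h32 h64 k (by omega) hkj hga hgb z (Or.inl ⟨hk, by rw [hLk, hLj]⟩)
    have hfin : 10 ^ 31 * |pp j z| ≤ 1 := by linarith
    exact ⟨by linarith, fun _ _ => hfin⟩

end Pool.Agent.Helper24.CX
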